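import Mathlib

/-! Lower bounds for the critical area for covering `n` lattice points. -/

namespace Pool.Agent.Results.MP_1ff44a_co.Large

open MeasureTheory Metric

/-- the lattice point with integer coordinates `p` -/
noncomputable def lat (p : ℤ × ℤ) : ℂ := ⟨p.1, p.2⟩

/-- every measurable set of area greater than `A` can be moved to cover `n` lattice points -/
def Good (n : ℕ) (A : ℝ) : Prop :=
  ∀ E : Set ℂ, MeasurableSet E → ENNReal.ofReal A < volume E →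
    ∃ (ρ : ℂ ≃ᵢ ℂ) (T : Finset (ℤ × ℤ)), n ≤ T.card ∧ ∀ p ∈ T, lat p ∈ ρ '' E

theorem vol (c : ℂ) {r : ℝ} (hr : 0 ≤ r) : volume (ball c r) = ENNReal.ofReal (Real.pi * r ^ 2) := by
  rw [Complex.volume_ball, mul_comm Real.pi, ENNReal.ofReal_mul (by positivity),
    ENNReal.ofReal_pow hr]
  congr 1
  rw [← NNReal.coe_real_pi, ENNReal.ofReal_coe_nnreal]

theorem disc {n : ℕ} {A r : ℝ} (h : Good n A) (hr : 0 < r) (hA : A < Real.pi * r ^ 2) :
    ∃ (c : ℂ) (T : Finset (ℤ × ℤ)), n ≤ T.card ∧ ∀ p ∈ T, dist (lat p) c < r := by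
  obtain ⟨ρ, T, h1, h2⟩ := h (ball 0 r) measurableSet_ball (by
    rw [vol _ hr.le]; exact (ENNReal.ofReal_lt_ofReal_iff (by positivity)).2 hA)
  refine ⟨ρ 0, T, h1, fun p hp => ?_⟩
  have := h2 p hp
  rwa [ρ.image_ball] at this

theorem dsq (x y : ℂ) : dist x y ^ 2 = (x.re - y.re) ^ 2 + (x.im - y.im) ^ 2 := by
  rw [Complex.dist_eq, Complex.sq_norm, Complex.normSq_apply]
  simp only [Complex.sub_re, Complex.sub_im]; ring

/-- half-open unit cell -/
def cell (p : ℤ × ℤ) : Set ℂ :=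
  Complex.measurableEquivRealProd ⁻¹'
    (Set.Ico ((p.1 : ℝ) - 1 / 2) (p.1 + 1 / 2) ×ˢ Set.Ico ((p.2 : ℝ) - 1 / 2) (p.2 + 1 / 2))

theorem mem_cell {p : ℤ × ℤ} {z : ℂ} : z ∈ cell p ↔
    ((p.1 : ℝ) - 1 / 2 ≤ z.re ∧ z.re < p.1 + 1 / 2) ∧ ((p.2 : ℝ) - 1 / 2 ≤ z.im ∧ z.im < p.2 + 1 / 2) :=
  Iff.rfl

theorem count (c : ℂ) {r : ℝ} (hr : 0 < r) (T : Finset (ℤ × ℤ)) (h : ∀ p ∈ T, dist (lat p) c < r) :
    (T.card : ℝ) ≤ Real.pi * (r + 3 / 4) ^ 2 := by
  have hm : ∀ p, MeasurableSet (cell p) := fun p =>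
    Complex.measurableEquivRealProd.measurable (measurableSet_Ico.prod measurableSet_Ico)
  have hv : ∀ p, volume (cell p) = 1 := fun p => by
    rw [cell, Complex.volume_preserving_equiv_real_prod.measure_preimage_equiv, Measure.volume_eq_prod,
      Measure.prod_prod, Real.volume_Ico, Real.volume_Ico]
    norm_num
  have h1 : volume (⋃ p ∈ T, cell p) = T.card := by
    rw [measure_biUnion_finset ?_ fun p _ => hm p]
    · simp [hv]
    · intro p _ q _ hne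
      refine Set.disjoint_left.2 fun z h1 h2 => hne ?_
      rw [mem_cell] at h1 h2
      have a1 : (p.1 : ℝ) < q.1 + 1 := by linarith [h1.1.1, h2.1.2]
      have a2 : (q.1 : ℝ) < p.1 + 1 := by linarith [h1.1.2, h2.1.1]
      have a3 : (p.2 : ℝ) < q.2 + 1 := by linarith [h1.2.1, h2.2.2]
      have a4 : (q.2 : ℝ) < p.2 + 1 := by linarith [h1.2.2, h2.2.1]
      norm_cast at a1 a2 a3 a4
      exact Prod.ext (by omega) (by omega)
  have h2 : (⋃ p ∈ T, cell p) ⊆ ball c (r + 3 / 4) := by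
    intro z hz
    simp only [Set.mem_iUnion] at hz
    obtain ⟨p, hp, hz⟩ := hz
    rw [mem_cell] at hz
    have : dist z (lat p) ≤ 3 / 4 := by
      refine (abs_le_of_sq_le_sq' ?_ (by norm_num)).2
      rw [dsq]; simp only [lat]
      nlinarith [hz.1.1, hz.1.2, hz.2.1, hz.2.2]
    exact mem_ball.2 (by linarith [dist_triangle z (lat p) c, h p hp])
  have h3 := measure_mono (μ := volume) h2
  rw [h1, vol _ (by positivity), ← ENNReal.ofReal_natCast,
    ENNReal.ofReal_le_ofReal_iff (by positivity)] at h3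
  exact h3

theorem parts :
    (∀ A : ℝ, Good 3 A → Real.pi / 2 ≤ A) ∧
    (∀ (n : ℕ) (A : ℝ), 0 ≤ A → Good n A → n - 3 * √n ≤ A) := by
  refine ⟨fun A h => ?_, fun n A hA h => ?_⟩
  · by_contra hA
    have s2 : √(1 / 2) ^ 2 = (1 / 2 : ℝ) := Real.sq_sqrt (by norm_num)
    obtain ⟨c, T, h1, h2⟩ := disc h (r := √(1 / 2)) (by positivity) (by rw [s2]; linarith)
    have key : ∀ p ∈ T, ∀ q ∈ T, (p.1 - q.1) ^ 2 + (p.2 - q.2) ^ 2 ≤ 1 := fun p hp q hq => by
      have a1 := pow_lt_pow_left₀ (h2 p hp) dist_nonneg two_ne_zero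
      have a2 := pow_lt_pow_left₀ (h2 q hq) dist_nonneg two_ne_zero
      rw [s2, dsq] at a1 a2
      simp only [lat] at a1 a2
      have : ((p.1 : ℝ) - q.1) ^ 2 + ((p.2 : ℝ) - q.2) ^ 2 < 2 := by
        nlinarith [sq_nonneg ((p.1 : ℝ) + q.1 - 2 * c.re), sq_nonneg ((p.2 : ℝ) + q.2 - 2 * c.im)]
      have : (p.1 - q.1) ^ 2 + (p.2 - q.2) ^ 2 < 2 := by exact_mod_cast this
      omega
    obtain ⟨p, q, s, hp, hq, hs, e1, e2, e3⟩ := Finset.two_lt_card_iff.1 h1
    have par : ∀ p ∈ T, ∀ q ∈ T, p ≠ q → (p.1 + p.2 + q.1 + q.2) % 2 = 1 := fun p hp q hq e => by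
      have k := key p hp q hq
      have b1 : -1 ≤ p.1 - q.1 ∧ p.1 - q.1 ≤ 1 := by constructor <;> nlinarith [sq_nonneg (p.2 - q.2)]
      have b2 : -1 ≤ p.2 - q.2 ∧ p.2 - q.2 ≤ 1 := by constructor <;> nlinarith [sq_nonneg (p.1 - q.1)]
      have : ¬ (p.1 = q.1 ∧ p.2 = q.2) := fun h => e (Prod.ext h.1 h.2)
      obtain ⟨x, hx⟩ : ∃ x, x = p.1 - q.1 := ⟨_, rfl⟩
      obtain ⟨y, hy⟩ : ∃ y, y = p.2 - q.2 := ⟨_, rfl⟩
      rw [← hx] at b1 k
      rw [← hy] at b2 k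
      obtain ⟨b11, b12⟩ := b1
      obtain ⟨b21, b22⟩ := b2
      interval_cases x <;> interval_cases y <;> omega
    have := par p hp q hq e1
    have := par p hp s hs e2
    have := par q hq s hs e3
    omega
  · by_contra hc
    push Not at hc
    have p3 := Real.pi_gt_three
    have p4 := Real.pi_lt_d2
    have s0 := Real.sqrt_nonneg (n : ℝ)
    have s1 : √(n : ℝ) ^ 2 = n := Real.sq_sqrt (by positivity)
    have s3 : 3 < √(n : ℝ) := by nlinarith
    have hp : 0 < (n - 3 * √n) / Real.pi := div_pos (by linarith) Real.pi_pos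
    have r2 : Real.pi * √((n - 3 * √n) / Real.pi) ^ 2 = n - 3 * √n := by
      rw [Real.sq_sqrt hp.le]; field_simp
    have r0 := Real.sqrt_pos.2 hp
    obtain ⟨c, T, h1, h2⟩ := disc h r0 (by rw [r2]; exact hc)
    have h3 := count c r0 T h2
    have h4 : (n : ℝ) ≤ T.card := by exact_mod_cast h1
    generalize √((n - 3 * √n) / Real.pi) = r at *
    generalize √(n : ℝ) = s at *
    have h5 : Real.pi * r ≤ 2 * s - 2 := by
      refine (abs_le_of_sq_le_sq' ?_ (by linarith)).2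
      have : (Real.pi * r) ^ 2 = Real.pi * (s ^ 2 - 3 * s) := by rw [s1, ← r2]; ring
      rw [this]
      nlinarith [mul_le_mul_of_nonneg_right p4.le (show 0 ≤ s ^ 2 - 3 * s by nlinarith)]
    nlinarith

theorem result (n : ℕ) (A : ℝ) (hA : 0 ≤ A) (h : Good n A) : n - 3 * √n ≤ A := parts.2 n A hA h

end Pool.Agent.Results.MP_1ff44a_co.Large
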